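import Pool.Agent.Y223.G.Stm

/-!
# Project G: the low part is of finite type

`t_LOWFT : S_LOWFT`.
-/

set_option autoImplicit false

namespace Pool.Agent.Y86.G
open Pool.Agent.Y223.G

variable {k K : Type} [CommRing k] [Field K] [Algebra k K]

/-- Every homogeneous component of `g` is a power of the unit `u` (of degree `ρ`) times an element
of `D` of degree in `[0, ρ)`. -/
def good (D : Subalgebra k (LP K)) (ρ : ℕ) (u : K) (g : LP K) : Prop :=
  ∀ e : ℤ, hm (e % ρ) (g.coeff e * u ^ (-(e / ρ))) ∈ D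

lemma good_hm {D : Subalgebra k (LP K)} {ρ : ℕ} {u : K} {d : ℤ} {a : K} :
    good D ρ u (hm d a) ↔ hm (d % ρ) (a * u ^ (-(d / ρ))) ∈ D := by
  constructor
  · intro h
    have := h d
    rwa [coeff_hm_same] at this
  · intro h e
    rw [coeff_hm]
    split_ifs with h1
    · rw [← h1]; exact h
    · rw [zero_mul, hm_zero]; exact D.zero_mem

lemma good_zero {D : Subalgebra k (LP K)} {ρ : ℕ} {u : K} : good D ρ u 0 := by
  intro e
  rw [AddMonoidAlgebra.coeff_zero, Finsupp.zero_apply, zero_mul, hm_zero]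
  exact D.zero_mem

lemma good_add {D : Subalgebra k (LP K)} {ρ : ℕ} {u : K} {g h : LP K} (hg : good D ρ u g)
    (hh : good D ρ u h) : good D ρ u (g + h) := by
  intro e
  rw [AddMonoidAlgebra.coeff_add, Finsupp.add_apply, add_mul, hm_add]
  exact D.add_mem (hg e) (hh e)

lemma good_sum {D : Subalgebra k (LP K)} {ρ : ℕ} {u : K} {ι : Type*} (s : Finset ι)
    (g : ι → LP K) (h : ∀ i ∈ s, good D ρ u (g i)) : good D ρ u (∑ i ∈ s, g i) := by
  classical
  induction s using Finset.induction_on with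
  | empty => rw [Finset.sum_empty]; exact good_zero
  | insert i s hi ih =>
    rw [Finset.sum_insert hi]
    exact good_add (h i (Finset.mem_insert_self _ _))
      (ih fun j hj => h j (Finset.mem_insert_of_mem hj))

lemma good_hm_mul {D : Subalgebra k (LP K)} {ρ : ℕ} (hρ : 0 < ρ) {u : K} (hu0 : u ≠ 0)
    (hv : hm (-(ρ : ℤ)) u⁻¹ ∈ D) {d e : ℤ} {a b : K} (hg : good D ρ u (hm d a))
    (hh : good D ρ u (hm e b)) : good D ρ u (hm (d + e) (a * b)) := by
  rw [good_hm] at hg hh ⊢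
  have hρ' : (0 : ℤ) < ρ := by exact_mod_cast hρ
  have h1 := D.mul_mem hg hh
  rw [hm_mul] at h1
  have d1 := Int.mul_ediv_add_emod d ρ
  have d2 := Int.emod_nonneg d hρ'.ne'
  have d3 := Int.emod_lt_of_pos d hρ'
  have e1 := Int.mul_ediv_add_emod e ρ
  have e2 := Int.emod_nonneg e hρ'.ne'
  have e3 := Int.emod_lt_of_pos e hρ'
  by_cases hlt : d % ρ + e % ρ < ρ
  · obtain ⟨q, r⟩ := (Int.ediv_emod_unique (a := d + e) (r := d % ρ + e % ρ)
      (q := d / ρ + e / ρ) hρ').2 ⟨by linear_combination d1 + e1, by omega, hlt⟩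
    rw [q, r]
    have hu : a * b * u ^ (-(d / ρ + e / ρ)) = a * u ^ (-(d / ρ)) * (b * u ^ (-(e / ρ))) := by
      rw [neg_add, zpow_add₀ hu0]; ring
    rw [hu]
    exact h1
  · obtain ⟨q, r⟩ := (Int.ediv_emod_unique (a := d + e) (r := d % ρ + e % ρ - ρ)
      (q := d / ρ + e / ρ + 1) hρ').2 ⟨by linear_combination d1 + e1, by omega, by omega⟩
    rw [q, r]
    have h2 := D.mul_mem h1 hv
    rw [hm_mul] at h2
    have hu : a * b * u ^ (-(d / ρ + e / ρ + 1)) =
        a * u ^ (-(d / ρ)) * (b * u ^ (-(e / ρ))) * u⁻¹ := by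
      rw [neg_add, neg_add, zpow_add₀ hu0, zpow_add₀ hu0, zpow_neg_one]; ring
    rw [hu]
    exact h2

lemma good_mul {D : Subalgebra k (LP K)} {ρ : ℕ} (hρ : 0 < ρ) {u : K} (hu0 : u ≠ 0)
    (hv : hm (-(ρ : ℤ)) u⁻¹ ∈ D) {g h : LP K} (hg : good D ρ u g) (hh : good D ρ u h) :
    good D ρ u (g * h) := by
  have hg1 : ∀ d, good D ρ u (hm d (g.coeff d)) := fun d => good_hm.2 (hg d)
  have hh1 : ∀ d, good D ρ u (hm d (h.coeff d)) := fun d => good_hm.2 (hh d)
  rw [eq_sum_hm g, eq_sum_hm h, Finset.sum_mul_sum]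
  refine good_sum _ _ fun d _ => good_sum _ _ fun e _ => ?_
  rw [hm_mul]
  exact good_hm_mul hρ hu0 hv (hg1 d) (hh1 e)

theorem t_LOWFT : S_LOWFT := by
  intro k K _ _ _ C hft hgr ρ hρ u hu0 hu hu'
  have hρ' : (0 : ℤ) < ρ := by exact_mod_cast hρ
  obtain ⟨n, δ, x, hx, hC⟩ := exists_gens hft hgr hρ hu0 hu hu'
  set D : Subalgebra k (LP K) := Algebra.adjoin k
    ({hm (-(ρ : ℤ)) u⁻¹} ∪ Set.range fun i => hm (δ i) (x i)) with hD
  have hvD : hm (-(ρ : ℤ)) u⁻¹ ∈ D := Algebra.subset_adjoin (Or.inl rfl)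
  have hxD : ∀ i, hm (δ i) (x i) ∈ D := fun i => Algebra.subset_adjoin (Or.inr ⟨i, rfl⟩)
  have hgood : ∀ f ∈ Algebra.adjoin k ({hm (ρ : ℤ) u, hm (-(ρ : ℤ)) u⁻¹} ∪
      Set.range fun i => hm (δ i) (x i)), good D ρ u f := by
    intro f hf
    induction hf using Algebra.adjoin_induction with
    | mem g hg =>
      rcases hg with (hg | hg) | ⟨i, hi⟩
      · rw [hg, good_hm, Int.emod_self, Int.ediv_self hρ'.ne', zpow_neg_one,
          mul_inv_cancel₀ hu0, hm_one]
        exact D.one_mem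
      · have hg' : g = hm (-(ρ : ℤ)) u⁻¹ := hg
        obtain ⟨q, r⟩ := (Int.ediv_emod_unique (a := -(ρ : ℤ)) (r := 0)
          (q := -1) hρ').2 ⟨by ring, le_rfl, hρ'⟩
        rw [hg', good_hm, q, r, neg_neg, zpow_one, inv_mul_cancel₀ hu0, hm_one]
        exact D.one_mem
      · rw [← hi]
        change good D ρ u (hm (δ i) (x i))
        obtain ⟨q, r⟩ := (Int.ediv_emod_unique (a := δ i) (r := δ i)
          (q := 0) hρ').2 ⟨by ring, (hx i).1, (hx i).2.1⟩
        rw [good_hm, q, r, neg_zero, zpow_zero, mul_one]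
        exact hxD i
    | algebraMap r =>
      rw [algebraMap_LP, good_hm, Int.zero_emod, Int.zero_ediv, neg_zero, zpow_zero, mul_one,
        ← algebraMap_LP]
      exact D.algebraMap_mem r
    | add x y _ _ hx hy => exact good_add hx hy
    | mul x y _ _ hx hy => exact good_mul hρ hu0 hvD hx hy
  have heq : low C ρ = D := by
    apply le_antisymm
    · unfold low
      rw [Algebra.adjoin_le_iff]
      rintro f ⟨hf, d, a, hd, rfl⟩
      change hm d a ∈ D
      have h1 := good_hm.1 (hgood _ (hC hf))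
      have hq : d / ρ < 1 := Int.ediv_lt_of_lt_mul hρ' (by linarith)
      obtain ⟨m, hm'⟩ := Int.eq_ofNat_of_zero_le (a := -(d / ρ)) (by omega)
      have h2 := D.mul_mem h1 (D.pow_mem hvD m)
      rw [hm_pow, hm_mul] at h2
      have hdiv := Int.mul_ediv_add_emod d ρ
      have hm'' : -(d / (ρ : ℤ)) = (m : ℤ) := hm'
      have e1 : d % (ρ : ℤ) + (m : ℤ) * -(ρ : ℤ) = d := by
        rw [← hm'']
        linear_combination hdiv
      have e2 : a * u ^ (-(d / (ρ : ℤ))) * u⁻¹ ^ m = a := by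
        rw [hm'', zpow_natCast, inv_pow, mul_assoc, mul_inv_cancel₀ (pow_ne_zero _ hu0), mul_one]
      rw [e1, e2] at h2
      exact h2
    · rw [hD, Algebra.adjoin_le_iff]
      rintro f (hf | ⟨i, rfl⟩)
      · rw [show f = hm (-(ρ : ℤ)) u⁻¹ from hf]
        exact mem_low hu' (by linarith)
      · exact mem_low (hx i).2.2 (hx i).2.1
  rw [heq]
  refine (Subalgebra.fg_iff_finiteType _).1 (Subalgebra.fg_def.2 ⟨_, ?_, hD.symm⟩)
  exact (Set.finite_singleton _).union (Set.finite_range _)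

end Pool.Agent.Y86.G
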